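import Mathlib

/-!
# Project FD (MP_ef6a16_nt), Step 2: Euler polynomials and the functions `L_m(t) = (t d/dt)^m 1/(1-t)`

* `eul m` : the polynomials with `(t d/dt)^m (1/(1-t)) = eul m (t) / (1-t)^(m+1)`;
* `LL m t = eul m (t) / (1-t)^(m+1)` for `t` in a field.
-/

namespace H69FD

open Polynomial

/-- the Euler polynomials -/
noncomputable def eul : ℕ → Polynomial ℤ
  | 0 => 1
  | m + 1 => X * ((1 - X) * derivative (eul m) + ((m : Polynomial ℤ) + 1) * eul m)

/-- `L_m(t) = (t d/dt)^m (1/(1-t))` -/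
noncomputable def LL {F : Type*} [Field F] (m : ℕ) (t : F) : F :=
  aeval t (eul m) / (1 - t) ^ (m + 1)

theorem eul_zero : eul 0 = 1 := rfl

theorem eul_succ (m : ℕ) :
    eul (m + 1) = X * ((1 - X) * derivative (eul m) + ((m : Polynomial ℤ) + 1) * eul m) := rfl

theorem LL_zero {F : Type*} [Field F] (t : F) : LL 0 t = 1 / (1 - t) := by
  simp [LL, eul]

/-- `L_m` commutes with ring homomorphisms of fields -/
theorem map_LL {F G : Type*} [Field F] [Field G] (φ : F →+* G) (m : ℕ) (t : F) :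
    φ (LL m t) = LL m (φ t) := by
  simp only [LL, map_div₀, map_pow, map_sub, map_one]
  congr 1
  have := Polynomial.hom_eval₂ (eul m) (algebraMap ℤ F) φ t
  simp only [aeval_def]
  rw [this]
  congr 1
  exact Subsingleton.elim _ _

theorem LL_succ_eq {F : Type*} [Field F] (m : ℕ) {t : F} (ht : t ≠ 1) :
    LL (m + 1) t = t * (aeval t (derivative (eul m)) / (1 - t) ^ (m + 1) +
      ((m : F) + 1) * aeval t (eul m) / (1 - t) ^ (m + 2)) := by
  have h : (1 - t) ≠ 0 := sub_ne_zero.2 (Ne.symm ht)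
  simp only [LL, eul_succ, map_mul, map_add, map_sub, map_one, aeval_X, map_natCast]
  field_simp
  ring

/-- derivative of `L_m` -/
theorem hasDerivAt_LL (m : ℕ) {t : ℂ} (ht : t ≠ 1) :
    HasDerivAt (LL m) (aeval t (derivative (eul m)) / (1 - t) ^ (m + 1) +
      ((m : ℂ) + 1) * aeval t (eul m) / (1 - t) ^ (m + 2)) t := by
  have h : (1 - t) ≠ 0 := sub_ne_zero.2 (Ne.symm ht)
  have h1 : HasDerivAt (fun x : ℂ => aeval x (eul m)) (aeval t (derivative (eul m))) t := by
    have := (eul m).hasDerivAt_aeval t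
    exact this
  have h2 : HasDerivAt (fun x : ℂ => (1 - x) ^ (m + 1)) (-(((m : ℂ) + 1) * (1 - t) ^ m)) t := by
    have := ((hasDerivAt_const t (1 : ℂ)).sub (hasDerivAt_id t)).pow (m + 1)
    simp only [Nat.add_sub_cancel, zero_sub, mul_neg, mul_one, Nat.cast_add, Nat.cast_one] at this
    exact this
  have h3 := h1.div h2 (pow_ne_zero _ h)
  refine (h3.congr_deriv ?_)
  field_simp
  ring

/-- derivative of `z ↦ L_m(T e^(ζ z))` -/
theorem hasDerivAt_LL_exp (m : ℕ) (T ζ z : ℂ) (h : T * Complex.exp (ζ * z) ≠ 1) :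
    HasDerivAt (fun z : ℂ => LL m (T * Complex.exp (ζ * z)))
      (ζ * LL (m + 1) (T * Complex.exp (ζ * z))) z := by
  have h1 : HasDerivAt (fun z : ℂ => T * Complex.exp (ζ * z)) (T * (Complex.exp (ζ * z) * ζ)) z := by
    have := (((hasDerivAt_id z).const_mul ζ).cexp).const_mul T
    simpa using this
  have h2 := (hasDerivAt_LL m h).comp z h1
  refine h2.congr_deriv ?_
  rw [LL_succ_eq m h]
  ring

end H69FD
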