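import Pool.Agent.H69.FD.Ser

/-!
# Project FD, Step 2: the `l`-adic bound for the differences of `H_T(m) = L_m(T) - l^m L_m(T^l)`
-/

namespace H69FD

open PowerSeries Finset

section field

variable {F : Type*} [Field F]

/-- `H_T(m) = L_m(T) - l^m L_m(T^l)` -/
noncomputable def HH (l m : ℕ) (t : F) : F := LL m t - (l : F) ^ m * LL m (t ^ l)

/-- the numerator of `∑ α_m H_T(m)` -/
noncomputable def num (l d : ℕ) (α : ℕ → ℤ) : Polynomial ℤ :=
  ∑ m ∈ range (d + 1), Polynomial.C (α m) *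
    (eul m * (1 - Polynomial.X) ^ (d - m) * (1 - Polynomial.X ^ l) ^ (d + 1) -
      Polynomial.C ((l : ℤ) ^ m) * Polynomial.expand ℤ l (eul m) *
        (1 - Polynomial.X ^ l) ^ (d - m) * (1 - Polynomial.X) ^ (d + 1))

theorem num_coe (l : ℕ) (hl : l ≠ 0) (d : ℕ) (α : ℕ → ℤ) :
    ((num l d α : Polynomial ℤ) : PowerSeries ℤ) =
      (∑ m ∈ range (d + 1), C (α m) * (pw m - C ((l : ℤ) ^ m) * PowerSeries.expand l hl (pw m))) *
        ((1 - X) ^ (d + 1) * (1 - X ^ l) ^ (d + 1)) := by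
  have hs : ∀ f : ℕ → Polynomial ℤ, ((∑ m ∈ range (d + 1), f m : Polynomial ℤ) : PowerSeries ℤ) =
      ∑ m ∈ range (d + 1), ((f m : Polynomial ℤ) : PowerSeries ℤ) := fun f =>
    map_sum (Polynomial.coeToPowerSeries.ringHom (R := ℤ)) f (range (d + 1))
  rw [num, hs, sum_mul]
  refine sum_congr rfl fun m hm => ?_
  have hm' : m ≤ d := Nat.lt_succ_iff.1 (mem_range.1 hm)
  obtain ⟨k, rfl⟩ := Nat.exists_eq_add_of_le hm'
  simp only [Polynomial.coe_mul, Polynomial.coe_sub, Polynomial.coe_one, Polynomial.coe_pow,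
    Polynomial.coe_X, Polynomial.coe_C, Nat.add_sub_cancel_left]
  rw [← pw_mul, ← expand_pw_mul l hl]
  ring

theorem dvd_coeff_num (l : ℕ) (hl : l ≠ 0) (d r : ℕ) (α : ℕ → ℤ)
    (hα : ∀ a : ℕ, ¬ l ∣ a → (l : ℤ) ^ r ∣ ∑ m ∈ range (d + 1), α m * (a : ℤ) ^ m) (i : ℕ) :
    (l : ℤ) ^ r ∣ (num l d α).coeff i := by
  set W : PowerSeries ℤ :=
    ∑ m ∈ range (d + 1), C (α m) * (pw m - C ((l : ℤ) ^ m) * PowerSeries.expand l hl (pw m))
    with hW
  have h1 : ∀ a, (l : ℤ) ^ r ∣ coeff a W := by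
    intro a
    rw [hW, map_sum]
    by_cases h : l ∣ a
    · rw [sum_eq_zero]
      · exact dvd_zero _
      · intro m _
        rw [coeff_C_mul, coeff_pw_sub, if_pos h, mul_zero]
    · have : ∑ m ∈ range (d + 1), coeff a (C (α m) *
          (pw m - C ((l : ℤ) ^ m) * PowerSeries.expand l hl (pw m))) =
          ∑ m ∈ range (d + 1), α m * (a : ℤ) ^ m := by
        refine sum_congr rfl fun m _ => ?_
        rw [coeff_C_mul, coeff_pw_sub, if_neg h]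
      rw [this]
      exact hα a h
  choose W' hW' using h1
  have h2 : W = C ((l : ℤ) ^ r) * PowerSeries.mk W' := by
    ext a
    rw [coeff_C_mul, coeff_mk, hW' a]
  rw [← Polynomial.coeff_coe, num_coe l hl, ← hW, h2, mul_assoc, coeff_C_mul]
  exact dvd_mul_right _ _

theorem aeval_num (l d : ℕ) (α : ℕ → ℤ) (T : F) (h1 : 1 - T ≠ 0) (h2 : 1 - T ^ l ≠ 0) :
    Polynomial.aeval T (num l d α) / ((1 - T) ^ (d + 1) * (1 - T ^ l) ^ (d + 1)) =
      ∑ m ∈ range (d + 1), (α m : F) * HH l m T := by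
  rw [num, map_sum, sum_div]
  refine sum_congr rfl fun m hm => ?_
  have hm' : m ≤ d := Nat.lt_succ_iff.1 (mem_range.1 hm)
  obtain ⟨k, rfl⟩ := Nat.exists_eq_add_of_le hm'
  simp only [map_mul, map_sub, map_one, map_pow, Polynomial.aeval_X,
    Nat.add_sub_cancel_left, Polynomial.expand_aeval, HH, LL, eq_intCast, Int.cast_natCast,
    map_intCast, map_natCast]
  have e1 : (1 - T) ^ (m + k + 1) = (1 - T) ^ (m + 1) * (1 - T) ^ k := by ring
  have e2 : (1 - T ^ l) ^ (m + k + 1) = (1 - T ^ l) ^ (m + 1) * (1 - T ^ l) ^ k := by ring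
  have p1 : (1 - T) ^ (m + 1) ≠ 0 := pow_ne_zero _ h1
  have p2 : (1 - T) ^ k ≠ 0 := pow_ne_zero _ h1
  have p3 : (1 - T ^ l) ^ (m + 1) ≠ 0 := pow_ne_zero _ h2
  have p4 : (1 - T ^ l) ^ k ≠ 0 := pow_ne_zero _ h2
  rw [e1, e2]
  generalize (1 - T) ^ (m + 1) = a1 at *
  generalize (1 - T) ^ k = a2 at *
  generalize (1 - T ^ l) ^ (m + 1) = a3 at *
  generalize (1 - T ^ l) ^ k = a4 at *
  field_simp

end field

section normed

variable {F : Type*} [NormedField F] [IsUltrametricDist F]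

theorem norm_int_le (n : ℤ) : ‖(n : F)‖ ≤ 1 := IsUltrametricDist.norm_intCast_le_one F n

theorem norm_sum_le_of {ι : Type*} (s : Finset ι) (f : ι → F) {C : ℝ} (hC : 0 ≤ C)
    (h : ∀ i ∈ s, ‖f i‖ ≤ C) : ‖∑ i ∈ s, f i‖ ≤ C :=
  IsUltrametricDist.norm_sum_le_of_forall_le_of_nonneg hC h

/-- values of polynomials with coefficients divisible by `l^r` -/
theorem norm_aeval_le (l r : ℕ) (M : Polynomial ℤ) (hM : ∀ i, (l : ℤ) ^ r ∣ M.coeff i) {T : F}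
    (hT : ‖T‖ ≤ 1) : ‖Polynomial.aeval T M‖ ≤ ‖(l : F)‖ ^ r := by
  rw [Polynomial.aeval_eq_sum_range]
  refine norm_sum_le_of _ _ (by positivity) fun i _ => ?_
  obtain ⟨c, hc⟩ := hM i
  rw [hc, zsmul_eq_mul, norm_mul, norm_pow]
  push_cast
  rw [norm_mul, norm_pow]
  have h1 : ‖(c : F)‖ ≤ 1 := norm_int_le c
  have h2 : ‖T‖ ^ i ≤ 1 := pow_le_one₀ (norm_nonneg _) hT
  calc ‖(l : F)‖ ^ r * ‖(c : F)‖ * ‖T‖ ^ i ≤ ‖(l : F)‖ ^ r * 1 * 1 := by gcongr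
    _ = _ := by ring

theorem norm_LL_le (m : ℕ) {T : F} (hT : ‖T‖ ≤ 1) (h1 : ‖1 - T‖ = 1) : ‖LL m T‖ ≤ 1 := by
  rw [LL, norm_div, norm_pow, h1, one_pow, div_one]
  have := norm_aeval_le 1 0 (eul m) (by simp) hT
  simpa using this

/-- **the key bound** -/
theorem key (l : ℕ) (hl : l ≠ 0) (d r : ℕ) (α : ℕ → ℤ)
    (hα : ∀ a : ℕ, ¬ l ∣ a → (l : ℤ) ^ r ∣ ∑ m ∈ range (d + 1), α m * (a : ℤ) ^ m)
    {T : F} (hT : ‖T‖ ≤ 1) (h1 : ‖1 - T‖ = 1) (h2 : ‖1 - T ^ l‖ = 1) :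
    ‖∑ m ∈ range (d + 1), (α m : F) * HH l m T‖ ≤ ‖(l : F)‖ ^ r := by
  have n1 : 1 - T ≠ 0 := by
    intro h
    rw [h, norm_zero] at h1
    exact zero_ne_one h1
  have n2 : 1 - T ^ l ≠ 0 := by
    intro h
    rw [h, norm_zero] at h2
    exact zero_ne_one h2
  rw [← aeval_num l d α T n1 n2, norm_div, norm_mul, norm_pow, norm_pow, h1, h2, one_pow,
    mul_one, div_one]
  exact norm_aeval_le l r _ (dvd_coeff_num l hl d r α hα) hT

end normed

end H69FD
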