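import Mathlib

/-!
# Project FD, Step 2: divided differences of a function `∑ b_r s(s-1)...(s-r+1)` at integers
-/

namespace H69FD

open Polynomial Finset

section dd

variable {F : Type*} [Field F] [CharZero F]

/-- the weights of the divided difference at the points of `A` -/
noncomputable def wt (A : Finset ℕ) (s : ℕ) : F := ∏ t ∈ A.erase s, ((s : F) - (t : F))⁻¹

/-- the divided difference of an integer polynomial at integers is an integer -/
theorem dd_int (A : Finset ℕ) (P : Polynomial ℤ) (hA : A.Nonempty) :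
    ∃ I : ℤ, ∑ s ∈ A, ((P.eval (s : ℤ) : ℤ) : F) * wt A s = (I : F) ∧
      (P.natDegree < A.card → I = P.coeff (A.card - 1)) := by
  set W : Polynomial ℤ := ∏ t ∈ A, (X - C (t : ℤ)) with hW
  have hWm : W.Monic := monic_prod_of_monic _ _ fun t _ => monic_X_sub_C _
  have hWd : W.natDegree = A.card := by
    rw [hW, natDegree_prod_of_monic _ _ fun t _ => monic_X_sub_C _]
    simp only [natDegree_X_sub_C, sum_const, smul_eq_mul, mul_one]
  set R := P %ₘ W with hR
  have hW1 : W ≠ 1 := by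
    intro h
    rw [h, natDegree_one] at hWd
    exact hA.card_pos.ne hWd
  have hRd : R.degree < (A.card : WithBot ℕ) := by
    have := degree_modByMonic_lt P hWm
    rw [degree_eq_natDegree hWm.ne_zero, hWd] at this
    exact this
  have hRe : ∀ s ∈ A, P.eval (s : ℤ) = R.eval (s : ℤ) := by
    intro s hs
    have h1 : P = R + W * (P /ₘ W) := (modByMonic_add_div P W).symm
    have h2 : W.eval (s : ℤ) = 0 := by
      rw [hW, eval_prod]
      exact prod_eq_zero hs (by simp)
    conv_lhs => rw [h1]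
    rw [eval_add, eval_mul, h2, zero_mul, add_zero]
  have hinj : Set.InjOn (fun s : ℕ => (s : F)) (A : Set ℕ) := fun a _ b _ h => Nat.cast_injective h
  have hRF : (R.map (Int.castRingHom F)).degree < (A.card : WithBot ℕ) :=
    lt_of_le_of_lt (degree_map_le) hRd
  have key := Lagrange.coeff_eq_sum hinj hRF
  refine ⟨R.coeff (A.card - 1), ?_, fun h => ?_⟩
  · have : ((R.coeff (A.card - 1) : ℤ) : F) = (R.map (Int.castRingHom F)).coeff (A.card - 1) := by
      rw [coeff_map]; simp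
    rw [this, key]
    refine sum_congr rfl fun s hs => ?_
    rw [hRe s hs, eval_map, div_eq_mul_inv]
    congr 1
    · rw [eval₂_at_natCast]
      simp
    · rw [wt, prod_inv_distrib]
  · have : R = P := by
      rw [hR, (modByMonic_eq_self_iff hWm)]
      rw [degree_eq_natDegree hWm.ne_zero, hWd]
      exact lt_of_le_of_lt degree_le_natDegree (by exact_mod_cast h)
    rw [this]

end dd

section normed

variable {F : Type*} [NormedField F] [IsUltrametricDist F] [CharZero F]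

omit [IsUltrametricDist F] [CharZero F] in
theorem exists_dominant (b : ℕ → F) {q : ℝ} (hq0 : 0 ≤ q) (hq1 : q < 1) (hb : ∀ r, ‖b r‖ ≤ q ^ r)
    (h : ∃ r, b r ≠ 0) : ∃ D, b D ≠ 0 ∧ ∀ r, D < r → ‖b r‖ < ‖b D‖ := by
  obtain ⟨r0, hr0⟩ := h
  have hpos : 0 < ‖b r0‖ := norm_pos_iff.2 hr0
  obtain ⟨N, hN⟩ := exists_pow_lt_of_lt_one hpos hq1
  have hN' : ∀ r, N ≤ r → ‖b r‖ < ‖b r0‖ := fun r hr =>
    lt_of_le_of_lt ((hb r).trans (pow_le_pow_of_le_one hq0 hq1.le hr)) hN
  have hr0N : r0 < N := by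
    by_contra hcon
    exact lt_irrefl _ (hN' r0 (not_lt.1 hcon))
  obtain ⟨D, hD, hmax⟩ := exists_max_image (range N) (fun r => toLex (‖b r‖, r)) ⟨r0, mem_range.2 hr0N⟩
  have h1 : ∀ r < N, ‖b r‖ < ‖b D‖ ∨ (‖b r‖ = ‖b D‖ ∧ r ≤ D) := by
    intro r hr
    have := hmax r (mem_range.2 hr)
    rw [Prod.Lex.toLex_le_toLex] at this
    exact this
  have h2 : ‖b r0‖ ≤ ‖b D‖ := by
    rcases h1 r0 hr0N with h | h
    · exact h.le
    · exact h.1.le
  refine ⟨D, norm_pos_iff.1 (lt_of_lt_of_le hpos h2), fun r hr => ?_⟩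
  rcases lt_or_ge r N with h | h
  · rcases h1 r h with h' | h'
    · exact h'
    · exact absurd h'.2 (not_le.2 hr)
  · exact lt_of_lt_of_le (hN' r h) h2

omit [IsUltrametricDist F] [CharZero F] in
theorem norm_wt_le (hn : ∀ n : ℤ, n ≠ 0 → 1 ≤ ‖(n : F)‖ * |(n : ℝ)|) (A : Finset ℕ) (S : ℕ)
    (hS : 1 ≤ S) (hA : ∀ s ∈ A, s ≤ S) {s : ℕ} (hs : s ∈ A) : ‖(wt A s : F)‖ ≤ (S : ℝ) ^ (A.card - 1) := by
  rw [wt, norm_prod, ← card_erase_of_mem hs]
  have hS' : (1 : ℝ) ≤ (S : ℝ) := by exact_mod_cast hS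
  rw [← prod_const]
  refine prod_le_prod (fun _ _ => norm_nonneg _) fun t ht => ?_
  have hts : t ≠ s := (mem_erase.1 ht).1
  have htS : t ≤ S := hA t (mem_erase.1 ht).2
  have hsS : s ≤ S := hA s hs
  have h1 : ((s : F) - (t : F)) = (((s : ℤ) - (t : ℤ) : ℤ) : F) := by push_cast; ring
  have h0 : ((s : ℤ) - (t : ℤ)) ≠ 0 := by omega
  have h2 := hn _ h0
  have h3 : |((((s : ℤ) - (t : ℤ) : ℤ)) : ℝ)| ≤ S := by
    rw [abs_le]
    push_cast
    have ha : (s : ℝ) ≤ S := by exact_mod_cast hsS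
    have hb : (t : ℝ) ≤ S := by exact_mod_cast htS
    have hc : (0 : ℝ) ≤ s := Nat.cast_nonneg _
    have hd : (0 : ℝ) ≤ t := Nat.cast_nonneg _
    constructor <;> linarith
  have h4 : 0 < ‖((((s : ℤ) - (t : ℤ) : ℤ)) : F)‖ := by
    by_contra hcon
    have h5 : ‖((((s : ℤ) - (t : ℤ) : ℤ)) : F)‖ = 0 := le_antisymm (not_lt.1 hcon) (norm_nonneg _)
    rw [h5, zero_mul] at h2
    linarith
  rw [norm_inv, h1, inv_le_comm₀ h4 (by linarith)]
  rw [inv_le_iff_one_le_mul₀ (by linarith)]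
  calc (1 : ℝ) ≤ ‖((((s : ℤ) - (t : ℤ) : ℤ)) : F)‖ * |((((s : ℤ) - (t : ℤ) : ℤ)) : ℝ)| := h2
    _ ≤ ‖((((s : ℤ) - (t : ℤ) : ℤ)) : F)‖ * S := by gcongr

/-- Strassmann's theorem in the form of divided differences -/
theorem strassmann (hn : ∀ n : ℤ, n ≠ 0 → 1 ≤ ‖(n : F)‖ * |(n : ℝ)|) (b : ℕ → F) {q : ℝ}
    (hq0 : 0 ≤ q) (hq1 : q < 1) (hb : ∀ r, ‖b r‖ ≤ q ^ r) (h : ∃ r, b r ≠ 0) :
    ∃ D : ℕ, ∃ κ : ℝ, 0 < κ ∧ ∀ A : Finset ℕ, A.card = D + 1 → ∀ (ε : ℝ) (S : ℕ), 0 ≤ ε → 1 ≤ S →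
      (∀ s ∈ A, s ≤ S ∧ ‖∑ r ∈ range (s + 1), b r * (s.descFactorial r : F)‖ ≤ ε) →
      κ ≤ ε * (S : ℝ) ^ D := by
  obtain ⟨D, hD0, hD⟩ := exists_dominant b hq0 hq1 hb h
  refine ⟨D, ‖b D‖, norm_pos_iff.2 hD0, fun A hA ε S hε hS hAS => ?_⟩
  have hne : A.Nonempty := card_pos.1 (by omega)
  have hext : ∀ s ∈ A, ∑ r ∈ range (s + 1), b r * (s.descFactorial r : F) =
      ∑ r ∈ range (S + 1), b r * (s.descFactorial r : F) := by
    intro s hs
    refine sum_subset (range_subset_range.2 (by have := (hAS s hs).1; omega)) fun r _ hr => ?_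
    have : s < r := by
      simp only [mem_range, not_lt] at hr
      omega
    rw [Nat.descFactorial_eq_zero_iff_lt.2 this, Nat.cast_zero, mul_zero]
  have hI : ∀ r, ∃ I : ℤ, ∑ s ∈ A, (s.descFactorial r : F) * wt A s = (I : F) ∧
      (r < D → I = 0) ∧ (r = D → I = 1) := by
    intro r
    obtain ⟨I, hI, hI'⟩ := dd_int (F := F) A (descPochhammer ℤ r) hne
    refine ⟨I, ?_, fun hr => ?_, fun hr => ?_⟩
    · rw [← hI]
      refine sum_congr rfl fun s _ => ?_
      rw [descPochhammer_eval_eq_descFactorial]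
      push_cast
      rfl
    · rw [hI' (by rw [descPochhammer_natDegree]; omega)]
      rw [coeff_eq_zero_of_natDegree_lt]
      rw [descPochhammer_natDegree]; omega
    · rw [hI' (by rw [descPochhammer_natDegree]; omega)]
      have h1 : A.card - 1 = (descPochhammer ℤ r).natDegree := by
        rw [descPochhammer_natDegree]; omega
      rw [h1]
      exact monic_descPochhammer ℤ r
  choose I hI1 hI2 hI3 using hI
  have hDS : D ≤ S := by
    have : A ⊆ range (S + 1) := fun s hs => mem_range.2 (by have := (hAS s hs).1; omega)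
    have := card_le_card this
    rw [card_range] at this
    omega
  have hsum : ∑ s ∈ A, (∑ r ∈ range (s + 1), b r * (s.descFactorial r : F)) * wt A s =
      b D + ∑ r ∈ (range (S + 1)).filter (fun r => D < r), b r * (I r : F) := by
    have e1 : ∑ s ∈ A, (∑ r ∈ range (s + 1), b r * (s.descFactorial r : F)) * wt A s =
        ∑ r ∈ range (S + 1), b r * (I r : F) := by
      rw [sum_congr rfl fun s hs => by rw [hext s hs]]
      simp_rw [sum_mul]
      rw [sum_comm]
      refine sum_congr rfl fun r _ => ?_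
      rw [← hI1 r, mul_sum]
      refine sum_congr rfl fun s _ => ?_
      ring
    rw [e1, ← sum_filter_add_sum_filter_not (range (S + 1)) (fun r => D < r), add_comm]
    congr 1
    rw [sum_eq_single D]
    · rw [hI3 D rfl]; simp
    · intro r hr hrD
      have : r < D := by
        simp only [mem_filter, not_lt] at hr
        omega
      rw [hI2 r this]; simp
    · intro hcon
      exact absurd (mem_filter.2 ⟨mem_range.2 (by omega), lt_irrefl D⟩) hcon
  have hn1 : ‖∑ r ∈ (range (S + 1)).filter (fun r => D < r), b r * (I r : F)‖ < ‖b D‖ := by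
    rcases ((range (S + 1)).filter (fun r => D < r)).eq_empty_or_nonempty with he | he
    · rw [he, sum_empty, norm_zero]
      exact norm_pos_iff.2 hD0
    · obtain ⟨r, hr, hle⟩ := IsUltrametricDist.exists_norm_finsetSum_le_of_nonempty he
        (fun r => b r * (I r : F))
      refine lt_of_le_of_lt hle ?_
      have hr' : D < r := (mem_filter.1 hr).2
      rw [norm_mul]
      calc ‖b r‖ * ‖(I r : F)‖ ≤ ‖b r‖ * 1 := by
            gcongr
            exact IsUltrametricDist.norm_intCast_le_one F _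
        _ < ‖b D‖ := by rw [mul_one]; exact hD r hr'
  have hn2 : ‖∑ s ∈ A, (∑ r ∈ range (s + 1), b r * (s.descFactorial r : F)) * wt A s‖ = ‖b D‖ := by
    rw [hsum, IsUltrametricDist.norm_add_eq_max_of_norm_ne_norm (ne_of_gt hn1), max_eq_left hn1.le]
  rw [← hn2]
  refine IsUltrametricDist.norm_sum_le_of_forall_le_of_nonneg (by positivity) fun s hs => ?_
  rw [norm_mul]
  have h1 := (hAS s hs).2
  have h2 := norm_wt_le hn A S hS (fun s hs => (hAS s hs).1) hs
  rw [hA, Nat.add_sub_cancel] at h2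
  gcongr

end normed

end H69FD
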