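import Pool.Agent.H69.FD.Eul

/-!
# Project FD, Step 2: the power series `∑ a^m X^a = eul m / (1-X)^(m+1)`
-/

namespace H69FD

open PowerSeries

/-- the power series `∑ a^m X^a` -/
noncomputable def pw (m : ℕ) : PowerSeries ℤ := PowerSeries.mk fun a => (a : ℤ) ^ m

theorem pw_succ (m : ℕ) : pw (m + 1) = X * d⁄dX ℤ (pw m) := by
  ext n
  rcases n with _ | n
  · simp [pw]
  · rw [coeff_succ_X_mul, coeff_derivative]
    simp [pw, pow_succ]

theorem pw_mul (m : ℕ) : pw m * (1 - X) ^ (m + 1) = ((eul m : Polynomial ℤ) : PowerSeries ℤ) := by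
  induction m with
  | zero =>
    have : pw 0 = PowerSeries.mk 1 := by ext n; simp [pw]
    rw [this, zero_add, pow_one, PowerSeries.mk_one_mul_one_sub_eq_one]
    simp [eul_zero]
  | succ m ih =>
    have h1 : d⁄dX ℤ (pw m * (1 - X) ^ (m + 1)) =
        ((Polynomial.derivative (eul m) : Polynomial ℤ) : PowerSeries ℤ) := by
      rw [ih, derivative_coe]
    have h2 : d⁄dX ℤ (pw m * (1 - X) ^ (m + 1)) =
        d⁄dX ℤ (pw m) * (1 - X) ^ (m + 1) - ((m : PowerSeries ℤ) + 1) * (pw m * (1 - X) ^ m) := by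
      rw [Derivation.leibniz, Derivation.leibniz_pow]
      simp only [smul_eq_mul, map_sub, Derivation.map_one_eq_zero, derivative_X,
        Nat.add_sub_cancel, nsmul_eq_mul, Nat.cast_add, Nat.cast_one]
      ring
    have hc : (((m : ℕ) : Polynomial ℤ) : PowerSeries ℤ) = (m : PowerSeries ℤ) :=
      map_natCast (Polynomial.coeToPowerSeries.ringHom (R := ℤ)) m
    rw [pw_succ, eul_succ]
    simp only [Polynomial.coe_mul, Polynomial.coe_add, Polynomial.coe_sub, Polynomial.coe_one,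
      Polynomial.coe_X, hc]
    rw [← h1, h2, ← ih]
    ring

theorem coe_expand (l : ℕ) (hl : l ≠ 0) (P : Polynomial ℤ) :
    ((Polynomial.expand ℤ l P : Polynomial ℤ) : PowerSeries ℤ) =
      PowerSeries.expand l hl (P : PowerSeries ℤ) := by
  ext n
  rw [Polynomial.coeff_coe, Polynomial.coeff_expand (Nat.pos_of_ne_zero hl), coeff_expand,
    Polynomial.coeff_coe]

theorem expand_pw_mul (l : ℕ) (hl : l ≠ 0) (m : ℕ) :
    PowerSeries.expand l hl (pw m) * (1 - X ^ l) ^ (m + 1) =
      ((Polynomial.expand ℤ l (eul m) : Polynomial ℤ) : PowerSeries ℤ) := by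
  rw [coe_expand l hl, ← pw_mul, map_mul, map_pow, map_sub, map_one, expand_X]

theorem coeff_pw_sub (l : ℕ) (hl : l ≠ 0) (m a : ℕ) :
    coeff a (pw m - C ((l : ℤ) ^ m) * PowerSeries.expand l hl (pw m)) =
      if l ∣ a then 0 else (a : ℤ) ^ m := by
  rw [map_sub, coeff_C_mul, coeff_expand]
  split_ifs with h
  · obtain ⟨b, rfl⟩ := h
    rw [Nat.mul_div_cancel_left _ (Nat.pos_of_ne_zero hl)]
    simp only [pw, coeff_mk]
    push_cast
    ring
  · simp [pw]

end H69FD
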