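import Mathlib

/-!
# Project FD, Step 2: from the counting form of Skolem's theorem to windows `(w_i, w_i^A]`
-/

namespace H69FD

open Filter Topology

/-- If at most `D` even `m` with `P m` lie in each range `[J, exp (c J)]`, then for every tower
`w (i+1) = w i ^ A` some window `(w i, w i ^ A]` contains no `m + 1` with `m` even and `P m`. -/
theorem windows (P : ℕ → Prop)
    (hS : ∃ D : ℕ, ∃ c : ℝ, 0 < c ∧ ∀ (J : ℕ) (S : Finset ℕ),
      (∀ m ∈ S, Even m ∧ 2 ≤ m ∧ J ≤ m ∧ (m : ℝ) ≤ Real.exp (c * J) ∧ P m) → S.card ≤ D)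
    (A : ℕ) (hA : 2 ≤ A) (w : ℕ → ℕ) (hw0 : 2 ≤ w 0) (hw : ∀ i, w (i + 1) = w i ^ A) (i₁ : ℕ) :
    ∃ i, i₁ ≤ i ∧ ∀ m, Even m → w i < m + 1 → m + 1 ≤ w i ^ A → ¬ P m := by
  by_contra hcon
  push Not at hcon
  obtain ⟨D, c, hc, hS⟩ := hS
  have hw2 : ∀ i, 2 ≤ w i := by
    intro i
    induction i with
    | zero => exact hw0
    | succ i ih =>
      rw [hw]
      calc 2 ≤ w i := ih
        _ = w i ^ 1 := (pow_one _).symm
        _ ≤ w i ^ A := Nat.pow_le_pow_right (by omega) (by omega)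
  have hlt : ∀ i, w i < w (i + 1) := by
    intro i
    rw [hw]
    calc w i = w i ^ 1 := (pow_one _).symm
      _ < w i ^ A := Nat.pow_lt_pow_right (by have := hw2 i; omega) (by omega)
  have hmono : StrictMono w := strictMono_nat_of_lt_succ hlt
  have hpow : ∀ i k, w (i + k) = w i ^ (A ^ k) := by
    intro i k
    induction k with
    | zero => simp
    | succ k ih => rw [← add_assoc, hw, ih, ← pow_mul, pow_succ]
  -- choose a large index
  have hlim : Tendsto (fun x : ℝ => x ^ (A ^ (D + 1)) / Real.exp (c * x)) atTop (𝓝 0) := by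
    have := Real.tendsto_pow_mul_exp_neg_atTop_nhds_zero (A ^ (D + 1))
    have h2 := (this.comp (tendsto_id.const_mul_atTop hc))
    have h3 := h2.const_mul ((1 / c) ^ (A ^ (D + 1)))
    rw [mul_zero] at h3
    refine h3.congr fun x => ?_
    simp only [Function.comp, id]
    rw [mul_pow, Real.exp_neg, ← mul_assoc, ← mul_assoc, ← mul_pow, one_div,
      inv_mul_cancel₀ hc.ne', one_pow, one_mul, div_eq_mul_inv]
  have hev : ∀ᶠ x : ℝ in atTop, x ^ (A ^ (D + 1)) ≤ Real.exp (c * x) := by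
    filter_upwards [hlim.eventually (gt_mem_nhds (show (0 : ℝ) < 1 by norm_num))] with x hx
    have := (div_lt_one (Real.exp_pos _)).1 hx
    exact this.le
  have hwt : Tendsto (fun i => (w i : ℝ)) atTop atTop :=
    tendsto_natCast_atTop_atTop.comp hmono.tendsto_atTop
  obtain ⟨i₀, hi₀, hi₁⟩ := ((hwt.eventually hev).and (eventually_ge_atTop i₁)).exists
  choose! f hf using hcon
  have hinj : Set.InjOn (fun k => f (i₀ + k)) (Finset.range (D + 1) : Set ℕ) := by
    have key : ∀ a b, a < b → f (i₀ + a) ≠ f (i₀ + b) := by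
      intro a b hab heq
      have h1 := (hf (i₀ + a) (by omega)).2.2.1
      have h2 := (hf (i₀ + b) (by omega)).2.1
      rw [← hw] at h1
      have h3 : w (i₀ + a + 1) ≤ w (i₀ + b) := hmono.monotone (by omega)
      rw [heq] at h1
      omega
    intro a _ b _ hab
    rcases lt_trichotomy a b with h | h | h
    · exact absurd hab (key a b h)
    · exact h
    · exact absurd hab.symm (key b a h)
  have hcard := hS (w i₀) ((Finset.range (D + 1)).image fun k => f (i₀ + k)) (by
    intro m hm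
    obtain ⟨k, hk, rfl⟩ := Finset.mem_image.1 hm
    obtain ⟨he, h1, h2, h3⟩ := hf (i₀ + k) (by omega)
    have h4 : w i₀ ≤ w (i₀ + k) := hmono.monotone (by omega)
    have h5 := hw2 i₀
    have hk' : k < D + 1 := Finset.mem_range.1 hk
    refine ⟨he, by omega, by omega, ?_, h3⟩
    have h6 : f (i₀ + k) ≤ w i₀ ^ (A ^ (D + 1)) := by
      have : w (i₀ + k + 1) ≤ w (i₀ + (D + 1)) := hmono.monotone (by omega)
      rw [← hpow]
      rw [← hw] at h2
      omega
    calc ((f (i₀ + k) : ℕ) : ℝ) ≤ ((w i₀ ^ (A ^ (D + 1)) : ℕ) : ℝ) := by exact_mod_cast h6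
      _ = (w i₀ : ℝ) ^ (A ^ (D + 1)) := by push_cast; ring
      _ ≤ _ := hi₀)
  rw [Finset.card_image_of_injOn hinj, Finset.card_range] at hcard
  omega

end H69FD
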